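import Pool.Agent.K9h28.IlJ

/-!
# MP_a3c811_ag: Euler factors in every single degree, from the conjecture D for one prime

Let `X` be smooth and projective over a local field with residue characteristic `p`, with strictly
semistable reduction and the strata `Y_s`, and let `W i` be the `ℓ`-adic cohomology theories for all
`ℓ ≠ p` (for varieties over the algebraically closed residue field). For general correspondences `Γ`
and elements `σ` of the Weil group the alternating sum over `q` of the traces of `Γ σ` on the `H^q`
of the geometric generic fibre is known to be independent of `ℓ` (Ochiai, T. Saito). In a single
degree this needs the Künneth projectors of `X`; for the graded pieces of the weights and for the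
elements fixed by inertia, i.e. for the local Euler factors of `X` and of the motives `(X, π)`, it
needs moreover the monodromy-weight conjecture for all `ℓ`.

The theorem says that it is enough to know something for one prime `λ`. Suppose that for `λ`, and
only for `λ`, the conjecture D is true for the products of two strata (for strata of abelian type, for
example products of curves and abelian varieties, Clozel proved this for many `λ`). Then for all
`ℓ ≠ p` the characteristic polynomial of `Γ σ` is rational and independent of `ℓ`
* on every graded piece `E_2^{a,b}` of weight `b` of `H^{a+b}`,
* on every `H^q`,
* on `ker (N | H^q)`, the subspace fixed by inertia, provided that the monodromy-weight conjecture is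
  true in degree `q` for the one prime `λ`. So the local Euler factor in degree `q` of the motive
  `(X, π)` is rational and independent of `ℓ ≠ p` (take the Frobenius element for `σ` and `π` for `Γ`).

Proof. The matrices of correspondences between the strata form a system of operators whose traces are
rational and independent of `ℓ`. For `λ` the trace form is nondegenerate, so this ring is von Neumann
regular at `λ`, and idempotents can be lifted; therefore the rank of an operator in the system, such
as the differential of the weight spectral sequence, is smallest for `λ`. As the Betti numbers of
the generic fibre are independent of `ℓ` the rank of the differential is too. So its kernel and its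
image are cut out by algebraic projectors which are the same for all `ℓ`. In the same way the
isomorphisms `N^m` at `λ` are isomorphisms for all `ℓ`, and the kernels of `N` are cut out by
algebraic projectors.
-/

set_option autoImplicit false

universe u v

namespace Pool.Agent.Results.MP_a3c811_ag.EachDegreeFromOnePrime

open Polynomial Pool.Agent.H914 Pool.Agent.K9h28.Il

/-- **Independence of `ℓ` in every single degree, from the conjecture D for one prime.** -/
theorem result {k : Type u} [Field k] {𝒱 : VarClass k} {ops : CycleOps 𝒱} {ι : Type}
    -- the cohomology theories, and the strata of the semistable scheme
    (W : ι → WeilCohomology.{u, v} ops) (T : Strata 𝒱) {n : ℕ} (hT : IsSemistable W T n)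
    -- the conjecture D for the products of the strata, for one theory
    (l : ι) (hD : ∀ s t, ConjectureD (W l) ((T.Y s).prod (T.Y t)))
    -- the action of a correspondence and of an element of the Weil group
    (g : ∀ i, Module.End (W i).K (T.cx (W i)).V) (hg : IsAction W T g) :
    -- the graded pieces of the weights
    (∀ a b, ∃ P : ℚ[X], ∀ i, (T.cx (W i)).CharpolyOnE2 (g i) a b P) ∧
    -- the cohomology in degree `q`
    ∀ q (L : ∀ i, Limit (T.cx (W i))), (∀ i, (L i).IsLimit n q (g i)) →
      (∃ P : ℚ[X], ∀ i, (L i).CharpolyOnV P) ∧
      -- the elements fixed by inertia
      ((T.cx (W l)).MonodromyWeight q → ∃ P : ℚ[X], ∀ i, (L i).CharpolyOnKer P) :=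
  new_main hT hD hg

end Pool.Agent.Results.MP_a3c811_ag.EachDegreeFromOnePrime
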