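import Pool.Agent.K9h22.EulF

/-!
# Local Euler factors of motives: independence of `ℓ` from one prime

Let `M = (X, π)` be a Chow motive over `ℚ` or over a local field `F` with residue field of `q` elements and
of characteristic `p` (a twist by `r` only changes `T` to `p ^ (-r) T`), and `m ≥ 0`. By de Jong there are a
finite extension `L` of `F` and a projective strictly semistable scheme `X'` over the integers of `L` with an
alteration from `X'` to `X`; so the `ℓ`-adic realisation `V_ℓ` of `M` in degree `m` is a direct summand of the
cohomology `V'_ℓ` of degree `m` of `X'`. The weight spectral sequence of Rapoport and Zink computes `V'_ℓ`
from the cohomology of the strata of the closed fibre of `X'` (the intersections of its components, smooth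
projective varieties over a finite field), with differentials and monodromy operator given by algebraic
correspondences between the strata; by T. Saito the elements `g` of the Weil group of nonnegative degree act
on `V_ℓ`, extended by zero to `V'_ℓ`, by algebraic correspondences between the strata.

Theorem: suppose that for ONE prime `ℓ₀`, different from `p`,

* homological and numerical equivalence coincide for the correspondences between the strata
  (`HomEqNum (R ℓ₀)`);
* the monodromy-weight conjecture holds for `V_(ℓ₀)`.

Then for ALL primes `ℓ ≠ p` the monodromy-weight conjecture holds for `V_ℓ`, and there is a polynomial `P`
with rational coefficients such that `det (1 - T F | V_ℓ ^ I) = P` for all `ℓ ≠ p` and all geometric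
Frobenius elements `F`: the local Euler factor of `M` in degree `m` does not depend on `ℓ`.

What was known: the alternating sum over all degrees of the traces of the Weil group and a correspondence
does not depend on `ℓ` (T. Saito). It gives the independence of `ℓ` for one degree only if the projector onto
this degree is algebraic for `X` (for example by the Lefschetz standard conjecture for `X`, which is unknown
in general). Here nothing is assumed about algebraic cycles on the generic fibre. The positivity (Hodge index)
part of the standard conjectures is not used; with it the monodromy-weight conjecture is known to follow.

Consequences (with known theorems, which are not part of the statement):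

* let the strata be of abelian type, for example dominated by products of curves. By the theorem of Clozel
  homological and numerical equivalence coincide for abelian varieties over finite fields for a set of primes
  `ℓ₀` of positive density. So for all such `X`, of any dimension, and all motives `(X, π)`, the local factor
  in degree two, and in every degree in which the monodromy-weight conjecture is known for one of these primes
  `ℓ₀`, does not depend on `ℓ`;
* for `X` with strata of abelian type the monodromy-weight conjecture is true for all `ℓ` as soon as it is
  true for one `ℓ₀` in this set.

Idea of the proof. Let `f` be a correspondence between strata, for instance a differential. As homological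
and numerical equivalence coincide for `ℓ₀`, the equation `f g f = f` can be solved by a correspondence `g`
with rational coefficients, in cohomology with coefficients in `ℚ_(ℓ₀)`. The intersection numbers which are the
traces of the powers of `g f` are then all equal to the rank of `f` for `ℓ₀`; as they do not depend on `ℓ`, the
rank of `f` for `ℓ` is at least the rank for `ℓ₀`. The sum of the dimensions of the graded pieces of `V'_ℓ` is
a Betti number of `X'`, so the ranks of the differentials do not depend on `ℓ`; hence for every `ℓ` the power
`(1 - g f) ^ k` is an algebraic projector onto the kernel of the differential `f`, and all traces on the graded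
pieces of the weight filtration are intersection numbers. The rank of `N ^ r` between graded pieces is the
rank of a correspondence, so it does not drop either. Finally the inertia invariants are computed from the
weight filtration by the monodromy-weight conjecture.
-/

set_option autoImplicit false

universe u v

namespace Pool.Agent.Results.MP_a3c811_ag.OnePrime

open Pool.Agent.K9h22.EulS

/-- **Rational Euler factors independent of `ℓ`, from one prime `ℓ₀`.** `E` is the part of the weight
spectral sequence (a diagram of algebraic correspondences `C` between strata) which computes the cohomology of
degree `m`, `G` the Weil group, `deg` its degree map, `J` a subgroup of finite index of the inertia group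
`deg.ker`, `op g` the correspondences by which `g` acts, `q` the number of elements of the residue field. For
each `ℓ` in `Λ`, `R ℓ` is the cohomology of the strata, `V ℓ` the realisation of the motive with its weight
filtration and monodromy operator, and `e ℓ` the edge homomorphisms of the spectral sequence. The Betti number
of `X'` in degree `m` is the same for all `ℓ`. -/
theorem result {C : Corr.{u}} {m q : ℕ} (E : WeightTerms C m) {G : Type} [Group G]
    (deg : G →* Multiplicative ℤ) (J : Subgroup G) (hJ : IsFiniteIndex deg J) (op : G → Op E)
    {Λ : Type} (K : Λ → Type) [∀ ℓ, Field (K ℓ)] [∀ ℓ, CharZero (K ℓ)]
    (R : ∀ ℓ, Coh.{u, v} C (K ℓ)) (V : ∀ ℓ, Rep.{v} G (K ℓ)) (e : ∀ ℓ, Edge (R ℓ) E (V ℓ))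
    (h : ∀ ℓ, IsRealisation (e ℓ) op deg J q) (hb : ∀ ℓ ℓ', betti (R ℓ) E = betti (R ℓ') E)
    (ℓ₀ : Λ) (hD : HomEqNum (R ℓ₀)) (hMW : MonodromyWeight (V ℓ₀) m) :
    (∀ ℓ, MonodromyWeight (V ℓ) m) ∧ ∃ P : Polynomial ℚ, ∀ ℓ g,
      HasDegree deg g 1 → IsEulerFactor (V ℓ) deg g (P.map (algebraMap ℚ (K ℓ))) :=
  main E deg J hJ op K R V e h hb ℓ₀ hD hMW

end Pool.Agent.Results.MP_a3c811_ag.OnePrime
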